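import Pool.Agent.H51R3.PS.Stmts51
import Pool.Agent.H841.PSRes

set_option autoImplicit false

/-! # Project H51-PS4, task Tor (helper643) -/

open CategoryTheory CategoryTheory.Limits
open scoped TensorProduct

namespace Pool.Agent.H643R3.PSTor

open Pool.Agent.H841.PSRes H51R3.PS

section alg

variable {R : Type} [CommRing R] (J : Ideal R)

/-- reduction of a free module -/
noncomputable def ph (n : ℕ) : ((R ⧸ J) ⊗[R] (Fin n → R)) ≃ₗ[R] (Fin n → R ⧸ J) :=
  TensorProduct.piScalarRight R R (R ⧸ J) (Fin n)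

theorem ph_tmul (n : ℕ) (r : R) (v : Fin n → R) :
    ph J n (Ideal.Quotient.mk J r ⊗ₜ[R] v) = fun i => Ideal.Quotient.mk J ((r • v) i) := by
  unfold ph
  rw [TensorProduct.piScalarRight_apply, TensorProduct.piScalarRightHom_tmul]
  funext i
  rw [Algebra.smul_def]
  simp only [Pi.smul_apply, smul_eq_mul, map_mul]
  rw [mul_comm]
  rfl

theorem compat {n m : ℕ} (f : (Fin n → R) →ₗ[R] (Fin m → R))
    (g : (Fin n → R ⧸ J) →ₗ[R ⧸ J] (Fin m → R ⧸ J))
    (h : ∀ v, g (fun i => Ideal.Quotient.mk J (v i)) = fun j => Ideal.Quotient.mk J (f v j))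
    (t : (R ⧸ J) ⊗[R] (Fin n → R)) :
    ph J m (LinearMap.lTensor (R ⧸ J) f t) = g (ph J n t) := by
  induction t using TensorProduct.induction_on with
  | zero => simp
  | tmul x v =>
    obtain ⟨r, rfl⟩ := Ideal.Quotient.mk_surjective x
    rw [LinearMap.lTensor_tmul, ph_tmul, ph_tmul, h, map_smul]
  | add a b ha hb => rw [map_add, map_add, map_add, map_add, ha, hb]

theorem compat1 {n : ℕ} (f : (Fin n → R) →ₗ[R] R) (g : (Fin n → R ⧸ J) →ₗ[R ⧸ J] (R ⧸ J))
    (h : ∀ v, g (fun i => Ideal.Quotient.mk J (v i)) = Ideal.Quotient.mk J (f v))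
    (t : (R ⧸ J) ⊗[R] (Fin n → R)) :
    TensorProduct.rid R (R ⧸ J) (LinearMap.lTensor (R ⧸ J) f t) = g (ph J n t) := by
  induction t using TensorProduct.induction_on with
  | zero => simp
  | tmul x v =>
    obtain ⟨r, rfl⟩ := Ideal.Quotient.mk_surjective x
    rw [LinearMap.lTensor_tmul, ph_tmul, h, map_smul, TensorProduct.rid_tmul, Algebra.smul_def,
      smul_eq_mul, map_mul, mul_comm]
    rfl
  | add a b ha hb => rw [map_add, map_add, map_add, map_add, ha, hb]

end alg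

/-- the resolution -/
noncomputable def mkE {R : Type} [CommRing R] {n1 n2 n3 : ℕ} {d1 : (Fin n1 → R) →ₗ[R] R}
    {d2 : (Fin n2 → R) →ₗ[R] (Fin n1 → R)} {d3 : (Fin n3 → R) →ₗ[R] (Fin n2 → R)}
    (hd : Ex d1 d2 d3) : Data4 R where
  M := ModuleCat.of R (R ⧸ (LinearMap.range d1 : Ideal R))
  X0 := ModuleCat.of R R
  X1 := ModuleCat.of R (Fin n1 → R)
  X2 := ModuleCat.of R (Fin n2 → R)
  X3 := ModuleCat.of R (Fin n3 → R)
  d1 := ModuleCat.ofHom d1
  d2 := ModuleCat.ofHom d2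
  d3 := ModuleCat.ofHom d3
  ε := ModuleCat.ofHom (Submodule.mkQ (LinearMap.range d1))
  h0 := by
    apply ModuleCat.hom_ext
    apply LinearMap.ext
    intro x
    exact (Submodule.Quotient.mk_eq_zero _).mpr (LinearMap.mem_range_self d1 x)
  h1 := by
    apply ModuleCat.hom_ext
    apply LinearMap.ext
    intro x
    exact hd.z1 x
  h2 := by
    apply ModuleCat.hom_ext
    apply LinearMap.ext
    intro x
    exact hd.z2 x
  p0 := by
    rw [← IsProjective.iff_projective]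
    infer_instance
  p1 := by
    rw [← IsProjective.iff_projective]
    infer_instance
  p2 := by
    rw [← IsProjective.iff_projective]
    infer_instance
  p3 := by
    rw [← IsProjective.iff_projective]
    infer_instance
  surj := Submodule.mkQ_surjective _
  e0 := by
    intro x hx
    have : x ∈ LinearMap.range d1 := by
      rw [← Submodule.ker_mkQ (LinearMap.range d1)]
      exact hx
    exact this
  e1 := hd.ex1
  e2 := hd.ex2
  e3 := by
    intro x hx
    exact hd.inj (by rw [map_zero]; exact hx)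

theorem ten_exact {R : Type} [CommRing R] (J : Ideal R) {n1 n2 n3 : ℕ}
    {d1 : (Fin n1 → R) →ₗ[R] R}
    {d2 : (Fin n2 → R) →ₗ[R] (Fin n1 → R)} {d3 : (Fin n3 → R) →ₗ[R] (Fin n2 → R)}
    {e1 : (Fin n1 → R ⧸ J) →ₗ[R ⧸ J] (R ⧸ J)}
    {e2 : (Fin n2 → R ⧸ J) →ₗ[R ⧸ J] (Fin n1 → R ⧸ J)}
    {e3 : (Fin n3 → R ⧸ J) →ₗ[R ⧸ J] (Fin n2 → R ⧸ J)}
    (c1 : ∀ v, e1 (fun i => Ideal.Quotient.mk J (v i)) = Ideal.Quotient.mk J (d1 v))
    (c2 : ∀ v, e2 (fun i => Ideal.Quotient.mk J (v i)) = fun j => Ideal.Quotient.mk J (d2 v j))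
    (c3 : ∀ v, e3 (fun i => Ideal.Quotient.mk J (v i)) = fun j => Ideal.Quotient.mk J (d3 v j))
    (hd : Ex d1 d2 d3) (he : Ex e1 e2 e3) :
    ∀ (m : ℕ) (x : (R ⧸ J) ⊗[R] ((mkE hd).X (m + 1))),
      LinearMap.lTensor (R ⧸ J) ((mkE hd).d m).hom x = 0 →
      ∃ y : (R ⧸ J) ⊗[R] ((mkE hd).X (m + 2)),
        LinearMap.lTensor (R ⧸ J) ((mkE hd).d (m + 1)).hom y = x
  | 0, x, hx => by
    have h1 : e1 (ph J n1 x) = 0 := by
      rw [← compat1 J d1 e1 c1 x]
      have : LinearMap.lTensor (R ⧸ J) d1 x = 0 := hx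
      rw [this, map_zero]
    obtain ⟨u, hu⟩ := he.ex1 _ h1
    refine ⟨(ph J n2).symm u, ?_⟩
    apply (ph J n1).injective
    have h2 := compat J d2 e2 c2 ((ph J n2).symm u)
    rw [LinearEquiv.apply_symm_apply, hu] at h2
    exact h2
  | 1, x, hx => by
    have h1 : e2 (ph J n2 x) = 0 := by
      rw [← compat J d2 e2 c2 x]
      have : LinearMap.lTensor (R ⧸ J) d2 x = 0 := hx
      rw [this, map_zero]
    obtain ⟨u, hu⟩ := he.ex2 _ h1
    refine ⟨(ph J n3).symm u, ?_⟩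
    apply (ph J n2).injective
    have h2 := compat J d3 e3 c3 ((ph J n3).symm u)
    rw [LinearEquiv.apply_symm_apply, hu] at h2
    exact h2
  | 2, x, hx => by
    have h1 : e3 (ph J n3 x) = 0 := by
      rw [← compat J d3 e3 c3 x]
      have : LinearMap.lTensor (R ⧸ J) d3 x = 0 := hx
      rw [this, map_zero]
    have h2 : ph J n3 x = 0 := he.inj (by rw [h1, map_zero])
    have h3 : x = 0 := (LinearEquiv.map_eq_zero_iff (ph J n3)).1 h2
    exact ⟨0, by rw [map_zero]; exact h3.symm⟩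
  | (m + 3), x, _ => by
    have h1 : Subsingleton ((mkE hd).X (m + 3 + 1)) :=
      ModuleCat.subsingleton_of_isZero (isZero_zero (ModuleCat.{0} R))
    have h2 : ∀ t : (R ⧸ J) ⊗[R] ((mkE hd).X (m + 3 + 1)), t = 0 := by
      intro t
      induction t using TensorProduct.induction_on with
      | zero => rfl
      | tmul a b => rw [Subsingleton.elim b 0, TensorProduct.tmul_zero]
      | add a b ha hb => rw [ha, hb, add_zero]
    exact ⟨0, by rw [map_zero]; exact (h2 x).symm⟩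

theorem taskTor : TaskTor := by
  intro R _ J n1 n2 n3 d1 d2 d3 e1 e2 e3 c1 c2 c3 hd he i hi
  obtain ⟨m, rfl⟩ : ∃ m, i = m + 1 := ⟨i - 1, by omega⟩
  let F : ModuleCat.{0} R ⥤ ModuleCat.{0} R :=
    (MonoidalCategory.tensoringLeft (ModuleCat.{0} R)).obj (ModuleCat.of R (R ⧸ J))
  refine IsZero.of_iso ?_ ((mkE hd).res.isoLeftDerivedObj F (m + 1))
  erw [← HomologicalComplex.exactAt_iff_isZero_homology]
  rw [HomologicalComplex.exactAt_iff' _ (m + 2) (m + 1) m (by simp) (by simp),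
    ShortComplex.moduleCat_exact_iff]
  intro x hx
  have key := ten_exact J c1 c2 c3 hd he m x ?_
  · obtain ⟨y, hy⟩ := key
    refine ⟨y, ?_⟩
    rw [← hy]
    have h2 := (mkE hd).cx_d (m + 1)
    change ((F.map ((mkE hd).cx.d (m + 2) (m + 1))).hom) y = _
    rw [h2]
    rfl
  · have h2 := (mkE hd).cx_d m
    change ((F.map ((mkE hd).cx.d (m + 1) m)).hom) x = 0 at hx
    rw [h2] at hx
    exact hx

end Pool.Agent.H643R3.PSTor
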